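import Pool.Agent.OMF.Stmts
import Pool.Agent.Helper81_NC.FIN
import Pool.Agent.Helper81_NC.GDA
import Pool.Agent.Helper51_NC.CHN
import Pool.Agent.Helper69_NC.KIT
import Pool.Agent.Helper60_NC.TAN
import Pool.Agent.Helper39_NC.CLO
import Pool.Agent.Helper27_NC.FLX
import Pool.Agent.Helper56_NC.LIN
import Pool.Agent.Helper10_NC.POL

/-! Row BRA of squad OMF: translation of the results on omissible points of plane sets. -/

namespace Pool.Agent.OMF.H43

open Finset Pool.Agent.GTO Pool.Agent.OMF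
open scoped Classical

/-! ### Points and lines -/

lemma dt_hp (p q r : ℝ × ℝ) : dt (hp p) (hp q) (hp r) =
    (q.1 - p.1) * (r.2 - p.2) - (q.2 - p.2) * (r.1 - p.1) := by
  simp only [dt, hp, Matrix.cons_val_zero, Matrix.cons_val_one, Matrix.cons_val]
  ring

lemma mem_line {p q r : ℝ × ℝ} (hpq : p ≠ q) :
    r ∈ line[ℝ, p, q] ↔ dt (hp p) (hp q) (hp r) = 0 := by
  rw [dt_hp, mem_affineSpan_pair_iff_exists_lineMap_eq]
  constructor
  · rintro ⟨t, rfl⟩
    simp only [AffineMap.lineMap_apply, vsub_eq_sub, vadd_eq_add, Prod.fst_add, Prod.snd_add,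
      Prod.smul_fst, Prod.smul_snd, Prod.fst_sub, Prod.snd_sub, smul_eq_mul]
    ring
  · intro h
    by_cases h1 : q.1 - p.1 = 0
    · have h2 : q.2 - p.2 ≠ 0 := by
        intro h2
        apply hpq
        exact Prod.ext (by linarith) (by linarith)
      rw [h1, zero_mul, zero_sub, neg_eq_zero] at h
      have h3 : r.1 - p.1 = 0 := (mul_eq_zero.1 h).resolve_left h2
      refine ⟨(r.2 - p.2) / (q.2 - p.2), ?_⟩
      rw [AffineMap.lineMap_apply]
      apply Prod.ext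
      · simp only [vsub_eq_sub, vadd_eq_add, Prod.fst_add, Prod.smul_fst, Prod.fst_sub,
          smul_eq_mul]
        rw [h1]; linarith
      · simp only [vsub_eq_sub, vadd_eq_add, Prod.snd_add, Prod.smul_snd, Prod.snd_sub,
          smul_eq_mul]
        rw [div_mul_cancel₀ _ h2]; ring
    · refine ⟨(r.1 - p.1) / (q.1 - p.1), ?_⟩
      rw [AffineMap.lineMap_apply]
      apply Prod.ext
      · simp only [vsub_eq_sub, vadd_eq_add, Prod.fst_add, Prod.smul_fst, Prod.fst_sub,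
          smul_eq_mul]
        rw [div_mul_cancel₀ _ h1]; ring
      · simp only [vsub_eq_sub, vadd_eq_add, Prod.snd_add, Prod.smul_snd, Prod.snd_sub,
          smul_eq_mul]
        field_simp
        linarith

lemma isLine_pair {p q : ℝ × ℝ} (hpq : p ≠ q) : OM.IsLine (line[ℝ, p, q]) := by
  unfold OM.IsLine
  rw [direction_affineSpan, vectorSpan_pair_rev]
  exact finrank_span_singleton (by rw [vsub_ne_zero]; exact hpq.symm)

variable (X : Finset (ℝ × ℝ))

/-- the points of `X` on `L` -/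
noncomputable def Ph (L : AffineSubspace ℝ (ℝ × ℝ)) : Finset {p // p ∈ X} :=
  univ.filter fun i => i.1 ∈ L

lemma mem_Ph {L : AffineSubspace ℝ (ℝ × ℝ)} {i : {p // p ∈ X}} : i ∈ Ph X L ↔ i.1 ∈ L := by
  simp [Ph]

lemma mem_ln' {i j r : {p // p ∈ X}} :
    r ∈ ln (fam X) i j ↔ dt (hp i.1) (hp j.1) (hp r.1) = 0 := by
  unfold ln
  rw [Finset.mem_filter]
  exact ⟨fun h => h.2, fun h => ⟨Finset.mem_univ _, h⟩⟩

lemma ln_eq {i j : {p // p ∈ X}} (hij : i ≠ j) : ln (fam X) i j = Ph X (line[ℝ, i.1, j.1]) := by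
  ext r
  rw [mem_Ph, mem_line (fun h => hij (Subtype.ext h)), mem_ln']

lemma card_Ph (L : AffineSubspace ℝ (ℝ × ℝ)) :
    ((X : Set (ℝ × ℝ)) ∩ L).ncard = (Ph X L).card := by
  have h : ((X : Set (ℝ × ℝ)) ∩ L) = ((Ph X L).image Subtype.val : Finset (ℝ × ℝ)) := by
    ext x
    simp only [Set.mem_inter_iff, SetLike.mem_coe, Finset.mem_image, mem_Ph]
    constructor
    · rintro ⟨h1, h2⟩
      exact ⟨⟨x, h1⟩, h2, rfl⟩
    · rintro ⟨i, h1, rfl⟩
      exact ⟨i.2, h1⟩
  rw [h, Set.ncard_coe_finset, Finset.card_image_of_injective _ Subtype.val_injective]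

lemma spanned_line {L : AffineSubspace ℝ (ℝ × ℝ)} (h : L ∈ OM.Spanned (X : Set (ℝ × ℝ))) :
    ∃ i j : {p // p ∈ X}, i ≠ j ∧ L = line[ℝ, i.1, j.1] := by
  obtain ⟨p, hp, q, hq, hpq, rfl⟩ := h
  exact ⟨⟨p, hp⟩, ⟨q, hq⟩, fun h => hpq (congrArg Subtype.val h), rfl⟩

lemma pair_spanned {i j : {p // p ∈ X}} (hij : i ≠ j) :
    line[ℝ, i.1, j.1] ∈ OM.Spanned (X : Set (ℝ × ℝ)) :=
  ⟨i.1, i.2, j.1, j.2, fun h => hij (Subtype.ext h), rfl⟩

lemma lns_eq : (lns (fam X) : Set (Finset {p // p ∈ X})) = Ph X '' OM.Spanned (X : Set (ℝ × ℝ)) := by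
  ext ℓ
  simp only [lns, Finset.coe_image, Set.mem_image, Finset.mem_coe, Finset.mem_filter,
    Finset.mem_univ, true_and]
  constructor
  · rintro ⟨⟨i, j⟩, hij, rfl⟩
    exact ⟨_, pair_spanned X hij, (ln_eq X hij).symm⟩
  · rintro ⟨L, hL, rfl⟩
    obtain ⟨i, j, hij, rfl⟩ := spanned_line X hL
    exact ⟨(i, j), hij, ln_eq X hij⟩

lemma Ph_inj : Set.InjOn (Ph X) (OM.Spanned (X : Set (ℝ × ℝ))) := by
  intro L hL L' hL' h
  obtain ⟨i, j, hij, rfl⟩ := spanned_line X hL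
  obtain ⟨i', j', hij', rfl⟩ := spanned_line X hL'
  have hne : i.1 ≠ j.1 := fun h => hij (Subtype.ext h)
  have hne' : i'.1 ≠ j'.1 := fun h => hij' (Subtype.ext h)
  have h1 : i ∈ Ph X (line[ℝ, i'.1, j'.1]) := by
    rw [← h, mem_Ph]; exact left_mem_affineSpan_pair ℝ _ _
  have h2 : j ∈ Ph X (line[ℝ, i'.1, j'.1]) := by
    rw [← h, mem_Ph]; exact right_mem_affineSpan_pair ℝ _ _
  rw [mem_Ph] at h1 h2
  exact OM.line_uniq (isLine_pair hne) (isLine_pair hne') hne (left_mem_affineSpan_pair ℝ _ _)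
    (right_mem_affineSpan_pair ℝ _ _) h1 h2

lemma pi_fam : PI (fam X) := by
  intro i j hij h
  apply hij
  apply Subtype.ext
  have h0 := congrFun h 0
  have h1 := congrFun h 1
  simp [cr, fam, hp] at h0 h1
  exact Prod.ext (by linarith) (by linarith)

lemma spn_fam (hX : ¬ Collinear ℝ (X : Set (ℝ × ℝ))) : Spn (fam X) := by
  have h1 : ∃ p ∈ X, ∃ q ∈ X, p ≠ q := by
    by_contra hc
    push Not at hc
    apply hX
    have hs : (X : Set (ℝ × ℝ)).Subsingleton := fun p hp q hq => hc p hp q hq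
    rcases hs.eq_empty_or_singleton with h | ⟨x, h⟩
    · rw [h]; exact collinear_empty ℝ _
    · rw [h]; exact collinear_singleton ℝ x
  obtain ⟨p, hp, q, hq, hpq⟩ := h1
  obtain ⟨r, hr, hr2⟩ := OM.exists_off hX (isLine_pair hpq)
  refine ⟨⟨p, hp⟩, ⟨q, hq⟩, ⟨r, hr⟩, ?_⟩
  intro h
  exact hr2 ((mem_line hpq).2 h)

lemma t2_fam : T2 (fam X) =
    {L ∈ OM.Spanned (X : Set (ℝ × ℝ)) | ((X : Set (ℝ × ℝ)) ∩ L).ncard = 2}.ncard := by
  have h1 : (((lns (fam X)).filter fun ℓ => ℓ.card = 2 : Finset (Finset {p // p ∈ X})) :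
      Set (Finset {p // p ∈ X})) =
      Ph X '' {L ∈ OM.Spanned (X : Set (ℝ × ℝ)) | ((X : Set (ℝ × ℝ)) ∩ L).ncard = 2} := by
    ext ℓ
    rw [Finset.mem_coe, Finset.mem_filter, ← Finset.mem_coe, lns_eq]
    constructor
    · rintro ⟨⟨L, hL, rfl⟩, h⟩
      exact ⟨L, ⟨hL, by rw [card_Ph]; exact h⟩, rfl⟩
    · rintro ⟨L, ⟨hL, h⟩, rfl⟩
      exact ⟨⟨L, hL, rfl⟩, by rw [← card_Ph]; exact h⟩
  unfold T2
  rw [← Set.ncard_coe_finset, h1, Set.InjOn.ncard_image]
  exact (Ph_inj X).mono fun L hL => hL.1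

/-! ### Omissible points -/

lemma om_iff (i : {p // p ∈ X}) : OM.Omissible (X : Set (ℝ × ℝ)) i.1 ↔ OMF.Om (fam X) i := by
  constructor
  · intro h j hji
    obtain ⟨-, h2⟩ := OM.om_of_omissible h
    obtain ⟨y, hy, hya, hyx, hd⟩ := h2 j.1 j.2 (fun h => hji (Subtype.ext h))
    have hsub : ({i, j, ⟨y, hy⟩} : Finset {p // p ∈ X}) ⊆ ln (fam X) i j := by
      intro r hr
      simp only [Finset.mem_insert, Finset.mem_singleton] at hr
      rw [mem_ln', dt_hp]
      rcases hr with rfl | rfl | rfl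
      · ring
      · ring
      · exact hd
    have hc : ({i, j, ⟨y, hy⟩} : Finset {p // p ∈ X}).card = 3 := by
      rw [Finset.card_eq_three]
      exact ⟨i, j, ⟨y, hy⟩, hji.symm, fun h => hya (congrArg Subtype.val h).symm,
        fun h => hyx (congrArg Subtype.val h).symm, rfl⟩
    rw [← hc]
    exact Finset.card_le_card hsub
  · intro h
    refine ⟨i.2, Set.Subset.antisymm ?_ ?_⟩
    · rintro L ⟨p, hp, q, hq, hpq, rfl⟩
      exact ⟨p, hp.1, q, hq.1, hpq, rfl⟩
    · have key : ∀ j : {p // p ∈ X}, j ≠ i →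
          line[ℝ, i.1, j.1] ∈ OM.Spanned ((X : Set (ℝ × ℝ)) \ {i.1}) := by
        intro j hji
        have h3 := h j hji
        have hne : i.1 ≠ j.1 := fun h => hji (Subtype.ext h.symm)
        obtain ⟨z, hz, hzi, hzj⟩ : ∃ z ∈ ln (fam X) i j, z ≠ i ∧ z ≠ j := by
          by_contra hc
          push Not at hc
          have hsub : ln (fam X) i j ⊆ {i, j} := by
            intro r hr
            simp only [Finset.mem_insert, Finset.mem_singleton]
            by_contra h4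
            push Not at h4
            exact h4.2 (hc r hr h4.1)
          have h5 := (Finset.card_le_card hsub).trans Finset.card_le_two
          omega
        rw [ln_eq X hji.symm, mem_Ph] at hz
        have hzj' : j.1 ≠ z.1 := fun h => hzj (Subtype.ext h.symm)
        refine ⟨j.1, ⟨j.2, fun h => hji (Subtype.ext h)⟩, z.1,
          ⟨z.2, fun h => hzi (Subtype.ext h)⟩, hzj', ?_⟩
        exact OM.line_uniq (isLine_pair hne) (isLine_pair hzj') hzj'
          (right_mem_affineSpan_pair ℝ _ _) hz (left_mem_affineSpan_pair ℝ _ _)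
          (right_mem_affineSpan_pair ℝ _ _)
      intro L hL
      obtain ⟨p, q, hpq, rfl⟩ := spanned_line X hL
      by_cases hpi : p = i
      · subst hpi
        exact key q hpq.symm
      by_cases hqi : q = i
      · subst hqi
        have h6 := key p hpq
        rwa [Set.pair_comm] at h6
      exact ⟨p.1, ⟨p.2, fun h => hpi (Subtype.ext h)⟩, q.1, ⟨q.2, fun h => hqi (Subtype.ext h)⟩,
        fun h => hpq (Subtype.ext h), rfl⟩

lemma ncard_sub (S : Set (ℝ × ℝ)) (Q : {p // p ∈ X} → Prop) [DecidablePred Q]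
    (h : ∀ i : {p // p ∈ X}, i.1 ∈ S ↔ Q i)
    (hS : S ⊆ X) : S.ncard = (univ.filter Q).card := by
  have h1 : S = ((univ.filter Q).image Subtype.val : Finset (ℝ × ℝ)) := by
    ext x
    simp only [Finset.coe_image, Set.mem_image, Finset.mem_coe, Finset.mem_filter,
      Finset.mem_univ, true_and]
    constructor
    · intro hx
      exact ⟨⟨x, hS hx⟩, (h ⟨x, hS hx⟩).1 hx, rfl⟩
    · rintro ⟨i, hi, rfl⟩
      exact (h i).2 hi
  rw [h1, Set.ncard_coe_finset, Finset.card_image_of_injective _ Subtype.val_injective]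

/-! ### The polynomial of a cubic form -/

/-- exponents -/
def ex (i : Fin 10) : ℕ × ℕ :=
  (![3, 2, 2, 1, 1, 1, 0, 0, 0, 0] i, ![0, 1, 0, 2, 1, 0, 3, 2, 1, 0] i)

/-- monomials -/
noncomputable def mo (i : Fin 10) : Fin 2 →₀ ℕ :=
  Finsupp.single 0 (ex i).1 + Finsupp.single 1 (ex i).2

/-- the polynomial `cub c (x, y, 1)` -/
noncomputable def po (c : Fin 10 → ℝ) : MvPolynomial (Fin 2) ℝ :=
  ∑ i, MvPolynomial.monomial (mo i) (c i)

lemma mo_inj : Function.Injective mo := by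
  have h0 : ∀ i j : Fin 10, ex i = ex j → i = j := by decide
  intro i j h
  apply h0
  have h1 := DFunLike.congr_fun h (0 : Fin 2)
  have h2 := DFunLike.congr_fun h (1 : Fin 2)
  simp [mo] at h1 h2
  exact Prod.ext h1 h2

lemma coeff_po (c : Fin 10 → ℝ) (i : Fin 10) : (po c).coeff (mo i) = c i := by
  unfold po
  rw [MvPolynomial.coeff_sum, Finset.sum_eq_single i]
  · rw [MvPolynomial.coeff_monomial, if_pos rfl]
  · intro j _ hji
    rw [MvPolynomial.coeff_monomial, if_neg (fun h => hji (mo_inj h))]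
  · intro h
    exact absurd (Finset.mem_univ i) h

lemma po_ne {c : Fin 10 → ℝ} (hc : c ≠ 0) : po c ≠ 0 := by
  intro h
  apply hc
  funext i
  rw [← coeff_po c i, h]
  simp

lemma po_deg (c : Fin 10 → ℝ) : (po c).totalDegree ≤ 3 := by
  unfold po
  refine (MvPolynomial.totalDegree_finsetSum _ _).trans ?_
  refine Finset.sup_le fun i _ => ?_
  refine (MvPolynomial.totalDegree_monomial_le _ _).trans ?_
  have h0 : ∀ i : Fin 10, (ex i).1 + (ex i).2 ≤ 3 := by decide
  refine le_trans (le_of_eq ?_) (h0 i)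
  unfold mo
  rw [Finsupp.sum_add_index' (fun _ => rfl) (fun _ _ _ => rfl), Finsupp.sum_single_index rfl,
    Finsupp.sum_single_index rfl]
  rfl

lemma po_eval (c : Fin 10 → ℝ) (x : ℝ × ℝ) :
    MvPolynomial.eval ![x.1, x.2] (po c) = cub c (hp x) := by
  unfold po
  rw [map_sum]
  have h : ∀ i, MvPolynomial.eval ![x.1, x.2] (MvPolynomial.monomial (mo i) (c i)) =
      c i * (x.1 ^ (ex i).1 * x.2 ^ (ex i).2) := by
    intro i
    rw [MvPolynomial.eval_monomial]
    congr 1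
    unfold mo
    rw [Finsupp.prod_add_index' (fun _ => pow_zero _) (fun _ _ _ => pow_add _ _ _)]
    simp
  rw [Finset.sum_congr rfl fun i _ => h i]
  simp only [Fin.sum_univ_succ, ex, cub, hp]
  simp
  ring

open Pool.Agent.NCub in
/-- the hand-in OmissibleNearCubic -/
theorem near (Y : Set (ℝ × ℝ)) (hfin : Y.Finite) (hY : ¬ Collinear ℝ Y)
    (P : MvPolynomial (Fin 2) ℝ) (hP : P ≠ 0) (hdeg : P.totalDegree ≤ 3) :
    3 * {x | OM.Omissible Y x}.ncard ≤
      Y.ncard + 33 * {x ∈ Y | MvPolynomial.eval ![x.1, x.2] P ≠ 0}.ncard + 60 :=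
  NCub.H81.fin (NCub.H81.gda NCub.H69.kit NCub.H60.tan NCub.H27.flx)
    (NCub.H51.chn NCub.H69.kit NCub.H39.clo NCub.H60.tan) NCub.H56.lin NCub.H10.pol
    Y hfin hY P hP hdeg

theorem bra : BraStmt := by
  intro X hX
  refine ⟨pi_fam X, spn_fam X hX, Fintype.card_coe X, t2_fam X, ?_, ?_, ?_⟩
  · exact ncard_sub X _ _ (fun i => om_iff X i) fun x hx => hx.1
  · intro k hk hk4
    have h1 := OM.on_rich (X : Set (ℝ × ℝ)) X.finite_toSet hX k (by
      rw [Set.ncard_coe_finset]; exact hk4)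
    have h2 : (univ.filter fun p => OMF.Om (fam X) p ∧ p ∈ UU (fam X) k).card ≤
        {x | OM.Omissible (X : Set (ℝ × ℝ)) x ∧ ∃ L : AffineSubspace ℝ (ℝ × ℝ), OM.IsLine L ∧
          x ∈ L ∧ k ≤ ((X : Set (ℝ × ℝ)) ∩ L).ncard}.ncard := by
      rw [← Finset.card_image_of_injective _ Subtype.val_injective, ← Set.ncard_coe_finset]
      refine Set.ncard_le_ncard ?_ (X.finite_toSet.subset fun x hx => hx.1.1)
      intro x hx
      rw [Finset.mem_coe, Finset.mem_image] at hx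
      obtain ⟨i, hi, rfl⟩ := hx
      simp only [Finset.mem_filter, Finset.mem_univ, true_and] at hi
      obtain ⟨hi1, hi2⟩ := hi
      simp only [UU, Finset.mem_filter, Finset.mem_univ, true_and] at hi2
      obtain ⟨ℓ, hℓ, hkℓ, hiℓ⟩ := hi2
      have h3 : ℓ ∈ (lns (fam X) : Set (Finset {p // p ∈ X})) := hℓ
      rw [lns_eq] at h3
      obtain ⟨L, hL, rfl⟩ := h3
      obtain ⟨p, q, hpq, rfl⟩ := spanned_line X hL
      refine ⟨(om_iff X i).2 hi1, _, isLine_pair (fun h => hpq (Subtype.ext h)),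
        (mem_Ph X).1 hiℓ, ?_⟩
      rw [card_Ph]
      exact hkℓ
    rw [Set.ncard_coe_finset] at h1
    have h4 : ((univ.filter fun p => OMF.Om (fam X) p ∧ p ∈ UU (fam X) k).card : ℝ) ≤
        X.card / 3 + 3 * (X.card : ℝ) ^ 2 / k ^ 2 := le_trans (by exact_mod_cast h2) h1
    have hk0 : (0 : ℝ) < (k : ℝ) ^ 2 := by
      have : (0 : ℝ) < k := by exact_mod_cast (show 0 < k by omega)
      positivity
    have h5 : (3 : ℝ) * ((univ.filter fun p => OMF.Om (fam X) p ∧ p ∈ UU (fam X) k).card : ℝ) *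
        k ^ 2 ≤ X.card * k ^ 2 + 9 * X.card ^ 2 := by
      have h6 := mul_le_mul_of_nonneg_right h4 hk0.le
      have h7 : ((X.card : ℝ) / 3 + 3 * (X.card : ℝ) ^ 2 / k ^ 2) * k ^ 2 =
          X.card * k ^ 2 / 3 + 3 * (X.card : ℝ) ^ 2 := by
        field_simp
      rw [h7] at h6
      linarith
    exact_mod_cast h5
  · intro c hc
    have h1 := near (X : Set (ℝ × ℝ)) X.finite_toSet hX (po c) (po_ne hc) (po_deg c)
    rw [Set.ncard_coe_finset, ncard_sub X {x | OM.Omissible (X : Set (ℝ × ℝ)) x}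
      (fun p => OMF.Om (fam X) p)
      (fun i => om_iff X i) (fun x hx => hx.1),
      ncard_sub X {x | x ∈ (X : Set (ℝ × ℝ)) ∧ MvPolynomial.eval ![x.1, x.2] (po c) ≠ 0}
        (fun p => cub c (fam X p) ≠ 0) (fun i => by
          simp only [Set.mem_ofPred_eq, po_eval]
          exact ⟨fun h => h.2, fun h => ⟨i.2, h⟩⟩) (fun x hx => hx.1)] at h1
    exact h1

end Pool.Agent.OMF.H43
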